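import Pool.Agent.H49.LAM.Mean

/-!
# A parabolic automorphism makes the Lelong numbers of an invariant nef class zero

The theorem is due to helper83 (worklog 3608, Theorem LAMBDA).
-/

namespace Pool.Agent.H49.LAM

open Filter Topology

/-- A compact Kähler manifold `Y`: smooth real functions, closed real forms of type `(1,1)`, their
classes, quasi-plurisubharmonic functions. -/
structure Kah where
  Y : Type
  [top : TopologicalSpace Y]
  /-- smooth real functions on `Y` -/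
  Sm : Submodule ℝ (Y → ℝ)
  /-- closed real `(1,1)`-forms on `Y` -/
  Fo : Type
  /-- `H^(1,1)(Y, ℝ)` -/
  H : Type
  [g1 : AddCommGroup Fo]
  [m1 : Module ℝ Fo]
  [g2 : AddCommGroup H]
  [m2 : Module ℝ H]
  /-- the cohomology class of a form -/
  cl : Fo →ₗ[ℝ] H
  /-- `dd^c` -/
  ddc : Sm →ₗ[ℝ] Fo
  /-- the form is semipositive at every point -/
  Pos : Fo → Prop
  /-- a Kähler form -/
  om : Fo
  /-- the mean value of a smooth function with respect to a smooth volume form -/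
  mean : Sm →ₗ[ℝ] ℝ
  /-- `Psh η φ`: `φ` is a quasi-plurisubharmonic function on `Y`, not identically `- ∞`, and
  `η + dd^c φ` is a (closed) positive current -/
  Psh : Fo → (Y → EReal) → Prop
  /-- the Lelong number of a quasi-plurisubharmonic function at a point -/
  nu : (Y → EReal) → Y → ℝ

attribute [instance] Kah.top Kah.g1 Kah.m1 Kah.g2 Kah.m2

/-- Forms and smooth functions. -/
structure Kah.Smooth (K : Kah) : Prop where
  /-- `Y` is compact -/
  bdd : ∀ f ∈ K.Sm, Bdd f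
  one : (fun _ => 1) ∈ K.Sm
  ddc_one : K.ddc ⟨fun _ => 1, one⟩ = 0
  mean_one : K.mean ⟨fun _ => 1, one⟩ = 1
  cl_ddc : ∀ f, K.cl (K.ddc f) = 0
  /-- the `dd^c`-lemma -/
  ddc_lemma : ∀ η, K.cl η = 0 → ∃ f, η = K.ddc f
  pos_add : ∀ η η', K.Pos η → K.Pos η' → K.Pos (η + η')
  pos_smul : ∀ (t : ℝ) η, 0 ≤ t → K.Pos η → K.Pos (t • η)
  /-- a Kähler form on a compact manifold dominates every form -/
  kahler : ∀ η, ∃ C : ℝ, 0 ≤ C ∧ K.Pos (C • K.om + η)
  /-- the supremum of a smooth `C om`-plurisubharmonic function is at most its mean value plus a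
  constant which does not depend on the function -/
  sup_mean : ∀ C : ℝ, ∃ C' : ℝ, ∀ f, K.Pos (C • K.om + K.ddc f) → ∀ y, (f : K.Y → ℝ) y ≤ K.mean f + C'

/-- Potential theory on a compact Kähler manifold. -/
structure Kah.Potential (K : Kah) : Prop where
  /-- Compactness of families of quasi-plurisubharmonic functions and Hartogs' lemma: `ψ_k` smooth,
  `η + s_k α + t_k β + dd^c ψ_k ≥ 0` with `s_k, t_k → 0`, `ψ_k ≤ C`, mean values `≥ - C`. Then a
  subsequence converges in `L^1` to an `η`-plurisubharmonic function `φ`; if `φ = - ∞` on a closed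
  set then the subsequence tends to `- ∞` uniformly on it. -/
  hartogs : ∀ (η α β : K.Fo) (ψ : ℕ → K.Sm) (s t : ℕ → ℝ) (C : ℝ), Tendsto s atTop (𝓝 0) →
    Tendsto t atTop (𝓝 0) → (∀ k, K.Pos (η + s k • α + t k • β + K.ddc (ψ k))) →
    (∀ k y, (ψ k : K.Y → ℝ) y ≤ C) → (∀ k, - C ≤ K.mean (ψ k)) →
    ∃ φ, K.Psh η φ ∧ ∃ σ : ℕ → ℕ, StrictMono σ ∧ ∀ Z : Set K.Y, IsClosed Z → (∀ z ∈ Z, φ z = ⊥) →
      ∀ M : ℝ, ∃ J, ∀ j, J ≤ j → ∀ z ∈ Z, (ψ (σ j) : K.Y → ℝ) z ≤ - M
  /-- the potential with minimal singularities -/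
  minimal : ∀ η, (∃ φ, K.Psh η φ) → ∃ φ, K.Psh η φ ∧ ∀ φ', K.Psh η φ' → ∃ C : ℝ, ∀ y, φ' y ≤ φ y + C
  add : ∀ η φ (f : K.Sm), K.Psh (η + K.ddc f) φ → K.Psh η fun y => φ y + ((f : K.Y → ℝ) y : EReal)
  nonneg : ∀ η φ y, K.Psh η φ → 0 ≤ K.nu φ y
  /-- the Lelong number of the larger function is smaller -/
  mono : ∀ η η' φ φ' (C : ℝ) y, K.Psh η φ → K.Psh η' φ' → (∀ x, φ x ≤ φ' x + C) → K.nu φ' y ≤ K.nu φ y
  /-- a quasi-plurisubharmonic function is `- ∞` in the points with positive Lelong number -/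
  bot : ∀ η φ y, K.Psh η φ → 0 < K.nu φ y → φ y = ⊥
  /-- Siu (here only: the Lelong number is upper semicontinuous) -/
  siu : ∀ η φ (c : ℝ), K.Psh η φ → 0 < c → IsClosed {y | c ≤ K.nu φ y}
  /-- division by a positive number -/
  div : ∀ (c : ℝ) η φ, 0 < c → K.Psh (c • η) φ → ∃ φ', K.Psh η φ' ∧ ∀ y, K.nu φ y = c * K.nu φ' y

/-- An automorphism of the compact Kähler manifold which preserves the volume form. -/
structure Kah.Auto (K : Kah) where
  g : Equiv.Perm K.Y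
  /-- the pull back of forms and of classes -/
  pb : K.Fo ≃ₗ[ℝ] K.Fo
  pbH : K.H ≃ₗ[ℝ] K.H
  mem : ∀ f ∈ K.Sm, f ∘ g ∈ K.Sm
  mem_symm : ∀ f ∈ K.Sm, f ∘ g.symm ∈ K.Sm
  pb_ddc : ∀ f : K.Sm, pb (K.ddc f) = K.ddc ⟨(f : K.Y → ℝ) ∘ g, mem f f.2⟩
  pb_cl : ∀ η, K.cl (pb η) = pbH (K.cl η)
  pos : ∀ η, K.Pos (pb η) ↔ K.Pos η
  mean : ∀ f : K.Sm, K.mean ⟨(f : K.Y → ℝ) ∘ g, mem f f.2⟩ = K.mean f
  psh : ∀ η φ, K.Psh η φ → K.Psh (pb η) (φ ∘ g)
  nu : ∀ η φ y, K.Psh η φ → K.nu (φ ∘ g) y = K.nu φ (g y)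

namespace Kah.Auto

variable {K : Kah}

/-- the inverse automorphism, only forms and functions -/
theorem pb_symm_ddc (G : K.Auto) (f : K.Sm) :
    G.pb.symm (K.ddc f) = K.ddc ⟨(f : K.Y → ℝ) ∘ G.g.symm, G.mem_symm f f.2⟩ := by
  rw [LinearEquiv.symm_apply_eq, G.pb_ddc]
  congr 1
  apply Subtype.ext
  funext y
  simp

theorem mean_symm (G : K.Auto) (f : K.Sm) :
    K.mean ⟨(f : K.Y → ℝ) ∘ G.g.symm, G.mem_symm f f.2⟩ = K.mean f := by
  rw [← G.mean ⟨(f : K.Y → ℝ) ∘ G.g.symm, G.mem_symm f f.2⟩]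
  congr 1
  apply Subtype.ext
  funext y
  simp

end Kah.Auto

/-- What is used of the automorphism or of its inverse: a bijection `s` of `Y`, the pull back `p`. -/
structure Half (K : Kah) where
  s : Equiv.Perm K.Y
  p : K.Fo →ₗ[ℝ] K.Fo
  mem : ∀ f ∈ K.Sm, f ∘ s ∈ K.Sm
  ddc : ∀ f : K.Sm, p (K.ddc f) = K.ddc ⟨(f : K.Y → ℝ) ∘ s, mem f f.2⟩
  pos : ∀ η, K.Pos η → K.Pos (p η)
  mean : ∀ f : K.Sm, K.mean ⟨(f : K.Y → ℝ) ∘ s, mem f f.2⟩ = K.mean f

namespace Half

variable {K : Kah} (P : Half K)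

/-- composition with `s` -/
def co (f : K.Sm) : K.Sm := ⟨(f : K.Y → ℝ) ∘ P.s, P.mem f f.2⟩

/-- the functions `V_k` -/
noncomputable def V (u v w : K.Sm) (f c : ℝ) : ℕ → K.Sm
  | 0 => 0
  | k + 1 => v + ((k : ℝ) * f) • w + ((k : ℝ) ^ 2 * c) • u + P.co (V u v w f c k)

theorem rec_V (u v w : K.Sm) (f c : ℝ) :
    Rec P.s (u : K.Y → ℝ) v w f c fun k => (P.V u v w f c k : K.Y → ℝ) :=
  ⟨rfl, fun _ => rfl⟩

theorem mean_V (u v w : K.Sm) (f c : ℝ) (hu : K.mean u = 0) (k : ℕ) :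
    K.mean (P.V u v w f c k) = k * K.mean v + (k * (k - 1) / 2 : ℝ) * f * K.mean w := by
  induction k with
  | zero => rw [V, map_zero]; simp
  | succ k ih =>
    rw [V, map_add, map_add, map_add, map_smul, map_smul, hu]
    change _ + K.mean ⟨_ ∘ P.s, _⟩ = _
    rw [P.mean, ih]
    simp only [smul_eq_mul]
    push_cast
    ring

/-- `(s^k)^* om = om + k f β + k^2 c θ + dd^c V_k` is semipositive -/
theorem pos_V {u v w : K.Sm} {f c e : ℝ} {be th : K.Fo} (hom : K.Pos K.om)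
    (h1 : P.p K.om = K.om + f • be + c • th + K.ddc v) (h2 : P.p be = be + e • th + K.ddc w)
    (h3 : P.p th = th + K.ddc u) (hec : e * f = 2 * c) (k : ℕ) :
    K.Pos (K.om + ((k : ℝ) * f) • be + ((k : ℝ) ^ 2 * c) • th + K.ddc (P.V u v w f c k)) := by
  induction k with
  | zero => simpa [V] using hom
  | succ k ih =>
    have h4 := P.pos _ ih
    rw [map_add, map_add, map_add, map_smul, map_smul, h1, h2, h3, P.ddc] at h4
    have h5 : K.om + ((((k + 1 : ℕ) : ℝ)) * f) • be + ((((k + 1 : ℕ) : ℝ)) ^ 2 * c) • th +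
        K.ddc (P.V u v w f c (k + 1)) =
        K.om + f • be + c • th + K.ddc v + ((k : ℝ) * f) • (be + e • th + K.ddc w) +
          ((k : ℝ) ^ 2 * c) • (th + K.ddc u) +
          K.ddc ⟨(P.V u v w f c k : K.Y → ℝ) ∘ P.s, P.mem _ (P.V u v w f c k).2⟩ := by
      have h6 : K.ddc (P.V u v w f c (k + 1)) = K.ddc v + ((k : ℝ) * f) • K.ddc w +
          ((k : ℝ) ^ 2 * c) • K.ddc u +
          K.ddc ⟨(P.V u v w f c k : K.Y → ℝ) ∘ P.s, P.mem _ (P.V u v w f c k).2⟩ := by
        rw [V, map_add, map_add, map_add, map_smul, map_smul]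
        rfl
      rw [h6]
      have h7 : (((k + 1 : ℕ) : ℝ)) ^ 2 * c = c + (k : ℝ) * f * e + (k : ℝ) ^ 2 * c := by
        push_cast
        have : (k : ℝ) * f * e = (k : ℝ) * (e * f) := by ring
        rw [this, hec]
        ring
      rw [h7]
      push_cast
      module
    rw [h5]
    exact h4

/-- `V_k ≤ C k^2` -/
theorem V_le (hK : K.Smooth) {u v w : K.Sm} {f c e : ℝ} {be th : K.Fo} (hom : K.Pos K.om)
    (h1 : P.p K.om = K.om + f • be + c • th + K.ddc v) (h2 : P.p be = be + e • th + K.ddc w)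
    (h3 : P.p th = th + K.ddc u) (hec : e * f = 2 * c) (hu : K.mean u = 0) :
    ∃ C : ℝ, 0 ≤ C ∧ (∀ (k : ℕ) y, (P.V u v w f c k : K.Y → ℝ) y ≤ C * (k : ℝ) ^ 2) ∧
      ∀ k : ℕ, - (C * (k : ℝ) ^ 2) ≤ K.mean (P.V u v w f c k) := by
  obtain ⟨C1, hC1, hp1⟩ := hK.kahler (-(f • be))
  obtain ⟨C2, hC2, hp2⟩ := hK.kahler (-(c • th))
  obtain ⟨C3, h4⟩ := hK.sup_mean (1 + C1 + C2)
  set B : ℝ := |K.mean v| + |f * K.mean w| with hB
  have hBn : 0 ≤ B := by positivity
  have hmean : ∀ k : ℕ, 0 < k → |K.mean (P.V u v w f c k)| ≤ B * (k : ℝ) ^ 2 := by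
    intro k hk
    have hk1 : (1 : ℝ) ≤ k := by exact_mod_cast hk
    rw [P.mean_V u v w f c hu]
    have e1 : |(k : ℝ) * K.mean v| ≤ (k : ℝ) ^ 2 * |K.mean v| := by
      rw [abs_mul, Nat.abs_cast]
      exact mul_le_mul_of_nonneg_right (by nlinarith) (abs_nonneg _)
    have e2 : |(k * (k - 1) / 2 : ℝ) * f * K.mean w| ≤ (k : ℝ) ^ 2 * |f * K.mean w| := by
      rw [mul_assoc, abs_mul]
      refine mul_le_mul_of_nonneg_right ?_ (abs_nonneg _)
      have : (0 : ℝ) ≤ k * (k - 1) / 2 := by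
        have : (0 : ℝ) ≤ k - 1 := by linarith
        positivity
      rw [abs_of_nonneg this]
      nlinarith
    calc _ ≤ |(k : ℝ) * K.mean v| + |(k * (k - 1) / 2 : ℝ) * f * K.mean w| := abs_add_le _ _
      _ ≤ B * (k : ℝ) ^ 2 := by rw [hB]; linarith
  refine ⟨B + |C3|, by positivity, fun k y => ?_, fun k => ?_⟩
  · rcases Nat.eq_zero_or_pos k with rfl | hk
    · simp [V]
    have hk1 : (1 : ℝ) ≤ k := by exact_mod_cast hk
    have hk0 : (k : ℝ) ≠ 0 := by positivity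
    have hk2 : (0 : ℝ) < (k : ℝ) ^ 2 := by positivity
    have h5 := P.pos_V hom h1 h2 h3 hec k
    -- the function `V_k / k^2`
    set q : ℝ := ((k : ℝ) ^ 2)⁻¹ with hq
    have hq0 : 0 < q := inv_pos.2 hk2
    have h6 : K.Pos ((1 + C1 + C2) • K.om + K.ddc (q • P.V u v w f c k)) := by
      have a1 := hK.pos_smul q _ hq0.le h5
      have a2 := hK.pos_smul (q * k) _ (by positivity) hp1
      have a4 : q * (k : ℝ) ^ 2 = 1 := by rw [hq]; field_simp
      have a5 := hK.pos_add _ _ (hK.pos_add _ _ a1 a2) hp2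
      have a6 : 0 ≤ 1 + C1 + C2 - (q + q * k * C1 + C2) := by
        have b1 : q ≤ 1 := by rw [hq]; exact inv_le_one_of_one_le₀ (by nlinarith)
        have b2 : q * k ≤ 1 := by
          calc q * k ≤ q * (k : ℝ) ^ 2 := mul_le_mul_of_nonneg_left (by nlinarith) hq0.le
            _ = 1 := a4
        nlinarith
      have a7 := hK.pos_add _ _ a5 (hK.pos_smul _ _ a6 hom)
      convert a7 using 1
      rw [map_smul]
      have a8 : q * ((k : ℝ) ^ 2 * c) = c := by rw [← mul_assoc, a4, one_mul]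
      have a9 : q • (((k : ℝ) ^ 2 * c) • th) = c • th := by rw [smul_smul, a8]
      rw [smul_add, smul_add, smul_add, a9]
      module
    have h7 := h4 _ h6 y
    rw [map_smul, smul_eq_mul] at h7
    have h8 : ((q • P.V u v w f c k : K.Sm) : K.Y → ℝ) y = q * (P.V u v w f c k : K.Y → ℝ) y := rfl
    rw [h8] at h7
    have h9 := (abs_le.1 (hmean k hk)).2
    have h10 : (P.V u v w f c k : K.Y → ℝ) y ≤ K.mean (P.V u v w f c k) + C3 * (k : ℝ) ^ 2 := by
      have a4 : (k : ℝ) ^ 2 * q = 1 := by rw [hq]; field_simp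
      have := mul_le_mul_of_nonneg_left h7 hk2.le
      calc (P.V u v w f c k : K.Y → ℝ) y = (k : ℝ) ^ 2 * (q * (P.V u v w f c k : K.Y → ℝ) y) := by
            rw [← mul_assoc, a4, one_mul]
        _ ≤ (k : ℝ) ^ 2 * (q * K.mean (P.V u v w f c k) + C3) := this
        _ = K.mean (P.V u v w f c k) + C3 * (k : ℝ) ^ 2 := by
            rw [mul_add, ← mul_assoc, a4, one_mul]; ring
    have h11 : C3 * (k : ℝ) ^ 2 ≤ |C3| * (k : ℝ) ^ 2 :=
      mul_le_mul_of_nonneg_right (le_abs_self _) hk2.le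
    linarith
  · rcases Nat.eq_zero_or_pos k with rfl | hk
    · simp [V]
    have h9 := (abs_le.1 (hmean k hk)).1
    have h10 : 0 ≤ |C3| * (k : ℝ) ^ 2 := by positivity
    linarith

end Half

theorem ereal_aux (a b : EReal) (r C D : ℝ) (h : a + (r : EReal) ≤ b + (C : EReal))
    (hD : C - r ≤ D) : a ≤ b + (D : EReal) := by
  induction b using EReal.rec with
  | bot =>
    rw [EReal.bot_add, le_bot_iff, EReal.add_eq_bot_iff] at h
    rcases h with h | h
    · rw [h]; exact bot_le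
    · exact absurd h (EReal.coe_ne_bot r)
  | top => rw [EReal.top_add_coe]; exact le_top
  | coe b =>
    induction a using EReal.rec with
    | bot => exact bot_le
    | top =>
      rw [EReal.top_add_coe, top_le_iff, ← EReal.coe_add] at h
      exact absurd h (EReal.coe_ne_top _)
    | coe a =>
      rw [← EReal.coe_add, ← EReal.coe_add, EReal.coe_le_coe_iff] at h
      rw [← EReal.coe_add, EReal.coe_le_coe_iff]
      linarith

/-- the two halves of an automorphism -/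
def Kah.Auto.fwd {K : Kah} (G : K.Auto) : Half K where
  s := G.g
  p := G.pb.toLinearMap
  mem := G.mem
  ddc := G.pb_ddc
  pos η h := (G.pos η).2 h
  mean := G.mean

/-- the inverse -/
def Kah.Auto.bwd {K : Kah} (G : K.Auto) : Half K where
  s := G.g.symm
  p := G.pb.symm.toLinearMap
  mem := G.mem_symm
  ddc := G.pb_symm_ddc
  pos η h := by
    refine (G.pos _).1 ?_
    change K.Pos (G.pb (G.pb.symm η))
    rw [LinearEquiv.apply_symm_apply]
    exact h
  mean := G.mean_symm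

/-- **Theorem LAMBDA.** `Y` is a compact Kähler manifold, `g` an automorphism which preserves the
smooth volume form; `A` is the class of the Kähler form, and `g^* A = A + f b + c L`,
`g^* b = b + e L`, `g^* L = L` with `e f = 2 c`, `c > 0`. Then the class `L` contains a closed positive
current with all Lelong numbers zero. -/
theorem lambda (K : Kah) (hK : K.Smooth) (hP : K.Potential) (G : K.Auto) (hom : K.Pos K.om)
    {b L : K.H} {f c e : ℝ} (h1 : G.pbH (K.cl K.om) = K.cl K.om + f • b + c • L)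
    (h2 : G.pbH b = b + e • L) (h3 : G.pbH L = L) (hec : e * f = 2 * c) (hc : 0 < c)
    (be th : K.Fo) (hbe : K.cl be = b) (hth : K.cl th = L) :
    ∃ φ, K.Psh th φ ∧ ∀ y, K.nu φ y = 0 := by
  -- the potentials of `g`
  obtain ⟨u0, hu0⟩ := hK.ddc_lemma (G.pb th - th) (by
    rw [map_sub, G.pb_cl, hth, h3, sub_self])
  set one : K.Sm := ⟨fun _ => 1, hK.one⟩ with hone
  set u : K.Sm := u0 - K.mean u0 • one with hu
  have hum : K.mean u = 0 := by
    rw [hu, map_sub, map_smul, hone, hK.mean_one, smul_eq_mul, mul_one, sub_self]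
  have hth' : G.pb th = th + K.ddc u := by
    have : K.ddc u = K.ddc u0 := by
      rw [hu, map_sub, map_smul, hone, hK.ddc_one, smul_zero, sub_zero]
    rw [this, ← hu0]
    abel
  obtain ⟨w, hw⟩ := hK.ddc_lemma (G.pb be - be - e • th) (by
    rw [map_sub, map_sub, map_smul, G.pb_cl, hbe, hth, h2]; abel)
  obtain ⟨v, hv⟩ := hK.ddc_lemma (G.pb K.om - K.om - f • be - c • th) (by
    rw [map_sub, map_sub, map_sub, map_smul, map_smul, G.pb_cl, hbe, hth, h1]; abel)
  have hw' : G.pb be = be + e • th + K.ddc w := by rw [← hw]; abel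
  have hv' : G.pb K.om = K.om + f • be + c • th + K.ddc v := by rw [← hv]; abel
  -- the potentials of the inverse
  set u1 : K.Sm := - G.bwd.co u with hu1
  have hu1m : K.mean u1 = 0 := by
    rw [hu1, map_neg]
    change - K.mean ⟨(u : K.Y → ℝ) ∘ G.g.symm, G.mem_symm u u.2⟩ = 0
    rw [G.mean_symm, hum, neg_zero]
  have e3 : G.pb.symm th = th + K.ddc u1 := by
    have e : th = G.pb.symm th + K.ddc (G.bwd.co u) := by
      have := congrArg G.pb.symm hth'
      rw [LinearEquiv.symm_apply_apply, map_add, G.pb_symm_ddc] at this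
      exact this
    rw [hu1, map_neg]
    exact eq_add_neg_of_add_eq e.symm
  have c2 : K.cl (G.pb.symm be) = b - e • L := by
    have h := G.pb_cl (G.pb.symm be)
    rw [LinearEquiv.apply_symm_apply, hbe] at h
    apply G.pbH.injective
    rw [← h, map_sub, map_smul, h2, h3]
    abel
  have c1 : K.cl (G.pb.symm K.om) = K.cl K.om - f • b + c • L := by
    have h := G.pb_cl (G.pb.symm K.om)
    rw [LinearEquiv.apply_symm_apply] at h
    apply G.pbH.injective
    rw [← h, map_add, map_sub, map_smul, map_smul, h1, h2, h3]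
    have : f • (b + e • L) = f • b + (2 * c) • L := by rw [smul_add, smul_smul, mul_comm f e, hec]
    rw [this]
    module
  obtain ⟨w1, hw1⟩ := hK.ddc_lemma (G.pb.symm be - be - (-e) • th) (by
    rw [map_sub, map_sub, map_smul, c2, hbe, hth]; module)
  obtain ⟨v1, hv1⟩ := hK.ddc_lemma (G.pb.symm K.om - K.om - (-f) • be - c • th) (by
    rw [map_sub, map_sub, map_sub, map_smul, map_smul, c1, hbe, hth]; module)
  have hw1' : G.pb.symm be = be + (-e) • th + K.ddc w1 := by rw [← hw1]; abel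
  have hv1' : G.pb.symm K.om = K.om + (-f) • be + c • th + K.ddc v1 := by rw [← hv1]; abel
  -- the bounds
  obtain ⟨C, hC0, hC, hCm⟩ := G.fwd.V_le hK (u := u) (v := v) (w := w) (f := f) (c := c) (e := e)
    (be := be) (th := th) hom hv' hw' hth' hec hum
  obtain ⟨C1, -, hC1, -⟩ := G.bwd.V_le hK (u := u1) (v := v1) (w := w1) (f := -f) (c := c) (e := -e)
    (be := be) (th := th) hom hv1' hw1' e3 (by rw [neg_mul_neg]; exact hec) hu1m
  -- the limit
  obtain ⟨φ, hφ, σ, hσ, hlim⟩ := hP.hartogs (c • th) K.om be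
    (fun k => ((((k + 1 : ℕ) : ℝ)) ^ 2)⁻¹ • G.fwd.V u v w f c (k + 1))
    (fun k => ((((k + 1 : ℕ) : ℝ)) ^ 2)⁻¹) (fun k => f * (((k + 1 : ℕ) : ℝ))⁻¹) C
    (by
      have h : Tendsto (fun k : ℕ => (((k + 1 : ℕ) : ℝ))⁻¹) atTop (𝓝 0) :=
        tendsto_inv_atTop_nhds_zero_nat.comp (tendsto_add_atTop_nat 1)
      have := h.pow 2
      simpa using this)
    (by
      have h : Tendsto (fun k : ℕ => (((k + 1 : ℕ) : ℝ))⁻¹) atTop (𝓝 0) :=
        tendsto_inv_atTop_nhds_zero_nat.comp (tendsto_add_atTop_nat 1)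
      simpa using h.const_mul f)
    (fun k => by
      have hk : (0 : ℝ) < ((k + 1 : ℕ) : ℝ) := by positivity
      have h := hK.pos_smul ((((k + 1 : ℕ) : ℝ)) ^ 2)⁻¹ _ (by positivity)
        (G.fwd.pos_V (u := u) (v := v) (w := w) (f := f) (c := c) (e := e) (be := be) (th := th)
          hom hv' hw' hth' hec (k + 1))
      convert h using 1
      rw [map_smul]
      have a1 : ((((k + 1 : ℕ) : ℝ)) ^ 2)⁻¹ * ((((k + 1 : ℕ) : ℝ)) ^ 2 * c) = c := by
        rw [← mul_assoc, inv_mul_cancel₀ (by positivity), one_mul]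
      have a2 : ((((k + 1 : ℕ) : ℝ)) ^ 2)⁻¹ * ((((k + 1 : ℕ) : ℝ)) * f) =
          f * (((k + 1 : ℕ) : ℝ))⁻¹ := by
        field_simp
      rw [smul_add, smul_add, smul_add, smul_smul, smul_smul, a1, a2]
      abel)
    (fun k y => by
      have hk : (0 : ℝ) < ((k + 1 : ℕ) : ℝ) := by positivity
      have h := hC (k + 1) y
      change ((((k + 1 : ℕ) : ℝ)) ^ 2)⁻¹ * (G.fwd.V u v w f c (k + 1) : K.Y → ℝ) y ≤ C
      rw [inv_mul_le_iff₀ (by positivity)]
      linarith)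
    (fun k => by
      have hk : (0 : ℝ) < ((k + 1 : ℕ) : ℝ) := by positivity
      have h := hCm (k + 1)
      rw [map_smul, smul_eq_mul, neg_le, ← mul_neg, inv_mul_le_iff₀ (by positivity)]
      linarith)
  obtain ⟨φm, hφm, hmin⟩ := hP.minimal (c • th) ⟨φ, hφ⟩
  have hzero : ∀ y, K.nu φm y = 0 := by
    intro y0
    by_contra hne
    have ha : 0 < K.nu φm y0 := lt_of_le_of_ne (hP.nonneg _ _ _ hφm) (Ne.symm hne)
    -- invariance
    obtain ⟨Cu, hCu⟩ := hK.bdd u u.2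
    have hinv : ∀ y, K.nu φm y ≤ K.nu φm (G.g y) := by
      intro y
      have p1 := G.psh _ _ hφm
      have p2 : G.pb (c • th) = c • th + K.ddc (c • u) := by
        rw [map_smul, hth', map_smul, smul_add]
      rw [p2] at p1
      obtain ⟨D, hD⟩ := hmin _ (hP.add _ _ _ p1)
      rw [← G.nu _ _ _ hφm]
      refine hP.mono _ _ _ _ (D + |c| * Cu) y p1 hφm fun x => ?_
      refine ereal_aux _ _ _ _ _ (hD x) ?_
      have h6 : ((c • u : K.Sm) : K.Y → ℝ) x = c * (u : K.Y → ℝ) x := rfl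
      rw [h6]
      have h7 : |c * (u : K.Y → ℝ) x| ≤ |c| * Cu := by
        rw [abs_mul]; exact mul_le_mul_of_nonneg_left (hCu x) (abs_nonneg c)
      linarith [(abs_le.1 h7).1]
    set Z : Set K.Y := {y | K.nu φm y0 ≤ K.nu φm y} with hZ
    have hZc : IsClosed Z := hP.siu _ _ _ hφm ha
    have horb : ∀ i : ℕ, (G.g ^ i) y0 ∈ Z := by
      intro i
      induction i with
      | zero =>
        change K.nu φm y0 ≤ K.nu φm y0
        exact le_rfl
      | succ i ih =>
        rw [pow_succ', Equiv.Perm.mul_apply]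
        exact le_trans ih (hinv _)
    have hbot : ∀ z ∈ Z, φ z = ⊥ := by
      intro z hz
      obtain ⟨D, hD⟩ := hmin _ hφ
      have h := hD z
      rw [hP.bot _ _ _ hφm (lt_of_lt_of_le ha hz), EReal.bot_add, le_bot_iff] at h
      exact h
    obtain ⟨B, hB⟩ := orbit_bound G.g y0 (hK.bdd u u.2) (hK.bdd v v.2) (hK.bdd w w.2)
      (hK.bdd v1 v1.2) (hK.bdd w1 w1.2) hc (G.fwd.rec_V u v w f c)
      (G.bwd.rec_V u1 v1 w1 (-f) c) hC hC1
    obtain ⟨J, hJ⟩ := hlim Z hZc hbot (B + 1)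
    have h8 := hB (σ J + 1) (B + 1) (Nat.succ_pos _) fun i => by
      have h := hJ J le_rfl _ (horb i)
      have hk : (0 : ℝ) < ((σ J + 1 : ℕ) : ℝ) := by positivity
      change ((((σ J + 1 : ℕ) : ℝ)) ^ 2)⁻¹ * (G.fwd.V u v w f c (σ J + 1) : K.Y → ℝ) _ ≤ _ at h
      rw [inv_mul_le_iff₀ (by positivity)] at h
      linarith
    linarith
  obtain ⟨φ', hφ', hnu⟩ := hP.div c th φm hc hφm
  refine ⟨φ', hφ', fun y => ?_⟩
  have := hnu y
  rw [hzero y] at this
  rcases mul_eq_zero.1 this.symm with h | h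
  · exact absurd h hc.ne'
  · exact h

end Pool.Agent.H49.LAM
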