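import Mathlib

/-!
# Invariant means along an orbit and a cubic recursion

`exists_mean`: on the bounded functions on a set `Y` with a bijection `g` there is an invariant mean
which only sees the forward orbit of a point (limit of Birkhoff averages along an ultrafilter).
`Rec`: the recursion `V (k + 1) = v + k f w + k ^ 2 c u + V k ∘ s`; if `V k ≤ C k ^ 2` for all `k`
then the mean of `u` is at most zero; if the mean of `u` is zero then the mean of `V k` is at least
`- C' k ^ 2`.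
-/

namespace Pool.Agent.H49.LAM

open Filter Topology Finset

/-- bounded functions -/
def Bdd {Y : Type} (h : Y → ℝ) : Prop := ∃ C, ∀ y, |h y| ≤ C

section bdd

variable {Y : Type} {h h' : Y → ℝ}

theorem Bdd.add (a : Bdd h) (b : Bdd h') : Bdd (h + h') := by
  obtain ⟨C, hC⟩ := a
  obtain ⟨C', hC'⟩ := b
  exact ⟨C + C', fun y => (abs_add_le _ _).trans (add_le_add (hC y) (hC' y))⟩

theorem Bdd.smul (a : Bdd h) (c : ℝ) : Bdd (c • h) := by
  obtain ⟨C, hC⟩ := a
  refine ⟨|c| * C, fun y => ?_⟩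
  rw [Pi.smul_apply, smul_eq_mul, abs_mul]
  exact mul_le_mul_of_nonneg_left (hC y) (abs_nonneg c)

theorem Bdd.comp (a : Bdd h) (s : Y → Y) : Bdd (h ∘ s) := by
  obtain ⟨C, hC⟩ := a
  exact ⟨C, fun y => hC (s y)⟩

theorem bdd_zero : Bdd (0 : Y → ℝ) := ⟨0, fun y => by simp⟩

end bdd

/-- A mean on the bounded functions on `Y` which is invariant under `s` and depends only on the
values on `O`. -/
structure IsMean {Y : Type} (m : (Y → ℝ) → ℝ) (s : Y → Y) (O : Set Y) : Prop where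
  add : ∀ h h', Bdd h → Bdd h' → m (h + h') = m h + m h'
  smul : ∀ (c : ℝ) h, Bdd h → m (c • h) = c * m h
  inv : ∀ h, Bdd h → m (h ∘ s) = m h
  le : ∀ h (C : ℝ), Bdd h → (∀ y ∈ O, h y ≤ C) → m h ≤ C

section avg

variable {Y : Type} (g : Equiv.Perm Y) (z : Y)

/-- the Birkhoff averages along the orbit of `z` -/
noncomputable def avg (h : Y → ℝ) (N : ℕ) : ℝ := (∑ i ∈ range N, h ((g ^ i) z)) / N

theorem avg_abs {h : Y → ℝ} {C : ℝ} (hC : ∀ y, |h y| ≤ C) (N : ℕ) : |avg g z h N| ≤ C := by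
  have hC0 : 0 ≤ C := (abs_nonneg _).trans (hC z)
  unfold avg
  rcases Nat.eq_zero_or_pos N with rfl | hN
  · simpa using hC0
  have hN' : (0 : ℝ) < N := by exact_mod_cast hN
  rw [abs_div, abs_of_pos hN', div_le_iff₀ hN']
  calc |∑ i ∈ range N, h ((g ^ i) z)| ≤ ∑ i ∈ range N, |h ((g ^ i) z)| := abs_sum_le_sum_abs _ _
    _ ≤ ∑ i ∈ range N, C := sum_le_sum fun i _ => hC _
    _ = C * N := by rw [sum_const, card_range, nsmul_eq_mul, mul_comm]

theorem exists_lim {h : Y → ℝ} (hh : Bdd h) :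
    ∃ l, Tendsto (avg g z h) (hyperfilter ℕ : Filter ℕ) (𝓝 l) := by
  obtain ⟨C, hC⟩ := hh
  have h1 : ((hyperfilter ℕ).map (avg g z h) : Filter ℝ) ≤ 𝓟 (Set.Icc (-C) C) := by
    rw [le_principal_iff, Ultrafilter.coe_map, Filter.mem_map]
    refine Filter.univ_mem' fun N => ?_
    exact abs_le.1 (avg_abs g z hC N)
  obtain ⟨l, _, hl⟩ := (isCompact_Icc (a := -C) (b := C)).ultrafilter_le_nhds _ h1
  exact ⟨l, hl⟩

open Classical in
/-- the limit of the Birkhoff averages along an ultrafilter -/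
noncomputable def mn (h : Y → ℝ) : ℝ := if hh : Bdd h then (exists_lim g z hh).choose else 0

theorem mn_tendsto {h : Y → ℝ} (hh : Bdd h) :
    Tendsto (avg g z h) (hyperfilter ℕ : Filter ℕ) (𝓝 (mn g z h)) := by
  unfold mn
  rw [dif_pos hh]
  exact (exists_lim g z hh).choose_spec

theorem mn_eq {h : Y → ℝ} (hh : Bdd h) {l : ℝ}
    (hl : Tendsto (avg g z h) (hyperfilter ℕ : Filter ℕ) (𝓝 l)) : mn g z h = l :=
  tendsto_nhds_unique (mn_tendsto g z hh) hl

theorem isMean : IsMean (mn g z) g {y | ∃ i : ℕ, y = (g ^ i) z} := by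
  refine ⟨fun h h' a b => ?_, fun c h a => ?_, fun h a => ?_, fun h C a b => ?_⟩
  · refine mn_eq g z (a.add b) ?_
    refine ((mn_tendsto g z a).add (mn_tendsto g z b)).congr fun N => ?_
    unfold avg
    rw [← add_div, ← sum_add_distrib]
    rfl
  · refine mn_eq g z (a.smul c) ?_
    refine ((mn_tendsto g z a).const_mul c).congr fun N => ?_
    unfold avg
    rw [← mul_div_assoc, mul_sum]
    rfl
  · refine mn_eq g z (a.comp _) ?_
    have h0 : Tendsto (fun N : ℕ => avg g z (h ∘ g) N - avg g z h N)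
        (hyperfilter ℕ : Filter ℕ) (𝓝 0) := by
      have h1 : Tendsto (fun N : ℕ => avg g z (h ∘ g) N - avg g z h N) atTop (𝓝 0) := by
        obtain ⟨C, hC⟩ := a
        have h2 : ∀ N : ℕ, avg g z (h ∘ g) N - avg g z h N = (h ((g ^ N) z) - h z) / N := by
          intro N
          unfold avg
          rw [← sub_div, ← sum_sub_distrib]
          congr 1
          have e := sum_range_sub (fun i : ℕ => h ((g ^ i) z)) N
          simp only [pow_zero, Equiv.Perm.coe_one, id_eq] at e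
          rw [← e]
          refine sum_congr rfl fun i _ => ?_
          rw [Function.comp_apply, pow_succ', Equiv.Perm.mul_apply]
        rw [tendsto_congr h2]
        refine squeeze_zero_norm (a := fun N : ℕ => (2 * C) / N) (fun N => ?_)
          (tendsto_const_div_atTop_nhds_zero_nat (2 * C))
        rw [Real.norm_eq_abs, abs_div, Nat.abs_cast]
        refine div_le_div_of_nonneg_right ?_ (Nat.cast_nonneg N)
        calc |h ((g ^ N) z) - h z| ≤ |h ((g ^ N) z)| + |h z| := abs_sub _ _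
          _ ≤ 2 * C := by linarith [hC ((g ^ N) z), hC z]
      exact h1.mono_left (Nat.hyperfilter_le_atTop)
    have := h0.add (mn_tendsto g z a)
    rw [zero_add] at this
    exact this.congr fun N => by ring
  · refine le_of_tendsto (mn_tendsto g z a) ?_
    have h1 : ∀ᶠ N in atTop, avg g z h N ≤ C := by
      filter_upwards [eventually_gt_atTop 0] with N hN
      have hN' : (0 : ℝ) < N := by exact_mod_cast hN
      unfold avg
      rw [div_le_iff₀ hN']
      calc ∑ i ∈ range N, h ((g ^ i) z) ≤ ∑ i ∈ range N, C := sum_le_sum fun i _ => b _ ⟨i, rfl⟩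
        _ = C * N := by rw [sum_const, card_range, nsmul_eq_mul, mul_comm]
    exact h1.filter_mono Nat.hyperfilter_le_atTop

end avg

/-! ## The recursion -/

section recursion

variable {Y : Type} {m : (Y → ℝ) → ℝ} {O : Set Y} {s : Y → Y}

/-- `V (k + 1) = v + k f w + k ^ 2 c u + V k ∘ s` -/
def Rec (s : Y → Y) (u v w : Y → ℝ) (f c : ℝ) (V : ℕ → Y → ℝ) : Prop :=
  V 0 = 0 ∧ ∀ k, V (k + 1) = v + ((k : ℝ) * f) • w + ((k : ℝ) ^ 2 * c) • u + V k ∘ s

variable {u v w : Y → ℝ} {f c : ℝ} {V : ℕ → Y → ℝ}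

theorem Rec.bdd (h : Rec s u v w f c V) (hu : Bdd u) (hv : Bdd v) (hw : Bdd w) (k : ℕ) :
    Bdd (V k) := by
  induction k with
  | zero => rw [h.1]; exact bdd_zero
  | succ k ih => rw [h.2]; exact ((hv.add (hw.smul _)).add (hu.smul _)).add (ih.comp s)

theorem IsMean.zero (hm : IsMean m s O) : m 0 = 0 := by
  have := hm.smul 0 0 bdd_zero
  rwa [zero_smul, zero_mul] at this

theorem IsMean.symm {g : Equiv.Perm Y} (hm : IsMean m g O) : IsMean m g.symm O := by
  refine ⟨hm.add, hm.smul, fun h a => ?_, hm.le⟩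
  rw [← hm.inv _ (a.comp g.symm)]
  congr 1
  funext y
  simp

theorem IsMean.sum_rec (hm : IsMean m s O) (h : Rec s u v w f c V) (hu : Bdd u) (hv : Bdd v)
    (hw : Bdd w) (k : ℕ) : m (V k) = (k : ℝ) * m v + (k * (k - 1) / 2 : ℝ) * f * m w +
      ((k - 1) * k * (2 * k - 1) / 6 : ℝ) * c * m u := by
  induction k with
  | zero => rw [h.1, hm.zero]; simp
  | succ k ih =>
    rw [h.2, hm.add _ _ ((hv.add (hw.smul _)).add (hu.smul _)) ((h.bdd hu hv hw k).comp s),
      hm.add _ _ (hv.add (hw.smul _)) (hu.smul _), hm.add _ _ hv (hw.smul _), hm.smul _ _ hw,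
      hm.smul _ _ hu, hm.inv _ (h.bdd hu hv hw k), ih]
    push_cast
    ring

/-- if `V k ≤ C k ^ 2` for all `k` then the mean of `u` is not positive -/
theorem IsMean.u_le (hm : IsMean m s O) (h : Rec s u v w f c V) (hu : Bdd u) (hv : Bdd v)
    (hw : Bdd w) (hc : 0 < c) {C : ℝ} (hC : ∀ k y, V k y ≤ C * (k : ℝ) ^ 2) : m u ≤ 0 := by
  by_contra hcon
  push Not at hcon
  set B : ℝ := |C| + |m v| + |f * m w| with hB
  have hBn : 0 ≤ B := by positivity
  obtain ⟨k, hk⟩ := exists_nat_gt (12 * B / (c * m u) + 2)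
  have hk2 : (2 : ℝ) < k := by
    have : 0 ≤ 12 * B / (c * m u) := by positivity
    linarith
  have h1 : m (V k) ≤ C * (k : ℝ) ^ 2 := hm.le _ _ (h.bdd hu hv hw k) fun y _ => hC k y
  rw [hm.sum_rec h hu hv hw k] at h1
  have h2 : -|m v| ≤ m v := neg_abs_le _
  have h3 : -|f * m w| ≤ f * m w := neg_abs_le _
  have h4 : C ≤ |C| := le_abs_self C
  have hcu : 0 < c * m u := mul_pos hc hcon
  have h5 : 12 * B < c * m u * k := by
    have : 12 * B / (c * m u) < k := by linarith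
    rw [div_lt_iff₀ hcu] at this
    linarith
  have h6 : (k : ℝ) ^ 3 / 12 ≤ (k - 1) * k * (2 * k - 1) / 6 := by
    have e1 : (k : ℝ) / 2 ≤ k - 1 := by linarith
    have e2 : (k : ℝ) ≤ 2 * k - 1 := by linarith
    have e3 : (k : ℝ) / 2 * k ≤ (k - 1) * k := mul_le_mul_of_nonneg_right e1 (by linarith)
    have e4 : (k : ℝ) / 2 * k * k ≤ (k - 1) * k * (2 * k - 1) :=
      mul_le_mul e3 e2 (by linarith) (mul_nonneg (by linarith) (by linarith))
    nlinarith
  have h7 : (k : ℝ) ^ 3 / 12 * (c * m u) ≤ (k - 1) * k * (2 * k - 1) / 6 * (c * m u) :=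
    mul_le_mul_of_nonneg_right h6 hcu.le
  have hk0 : (0 : ℝ) < k := by linarith
  have h8 : -(|m v| * (k : ℝ) ^ 2) ≤ k * m v := by
    have : (k : ℝ) ≤ (k : ℝ) ^ 2 := by nlinarith
    have e : k * |m v| ≤ (k : ℝ) ^ 2 * |m v| := mul_le_mul_of_nonneg_right this (abs_nonneg _)
    nlinarith [mul_le_mul_of_nonneg_left h2 hk0.le]
  have h9 : -(|f * m w| * (k : ℝ) ^ 2) ≤ (k * (k - 1) / 2) * (f * m w) := by
    have e0 : (0 : ℝ) ≤ k * (k - 1) / 2 := by
      have : (0 : ℝ) ≤ k - 1 := by linarith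
      positivity
    have e1 : (k : ℝ) * (k - 1) / 2 ≤ (k : ℝ) ^ 2 := by nlinarith
    have e2 := mul_le_mul_of_nonneg_left h3 e0
    have e3 := mul_le_mul_of_nonneg_right e1 (abs_nonneg (f * m w))
    linarith
  have h10 : C * (k : ℝ) ^ 2 ≤ |C| * (k : ℝ) ^ 2 := mul_le_mul_of_nonneg_right h4 (by positivity)
  have h11 : (k : ℝ) ^ 3 / 12 * (c * m u) ≤ B * (k : ℝ) ^ 2 := by
    rw [hB]
    nlinarith
  have h12 : (k : ℝ) ^ 2 * (c * m u * k) ≤ (k : ℝ) ^ 2 * (12 * B) := by nlinarith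
  have h13 := le_of_mul_le_mul_left h12 (by positivity)
  linarith

/-- if the mean of `u` is zero then the mean of `V k` is at least `- C' k ^ 2` -/
theorem IsMean.low (hm : IsMean m s O) (h : Rec s u v w f c V) (hu : Bdd u) (hv : Bdd v)
    (hw : Bdd w) (h0 : m u = 0) (k : ℕ) :
    - ((|m v| + |f * m w|) * (k : ℝ) ^ 2) ≤ m (V k) := by
  rw [hm.sum_rec h hu hv hw k, h0, mul_zero, add_zero]
  rcases Nat.eq_zero_or_pos k with rfl | hk
  · simp
  have hk1 : (1 : ℝ) ≤ k := by exact_mod_cast hk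
  have h2 : -|m v| ≤ m v := neg_abs_le _
  have h3 : -|f * m w| ≤ f * m w := neg_abs_le _
  have h8 : -(|m v| * (k : ℝ) ^ 2) ≤ k * m v := by
    have : (k : ℝ) ≤ (k : ℝ) ^ 2 := by nlinarith
    have e : k * |m v| ≤ (k : ℝ) ^ 2 * |m v| := mul_le_mul_of_nonneg_right this (abs_nonneg _)
    nlinarith [mul_le_mul_of_nonneg_left h2 (by linarith : (0 : ℝ) ≤ k)]
  have h9 : -(|f * m w| * (k : ℝ) ^ 2) ≤ (k * (k - 1) / 2) * (f * m w) := by
    have e0 : (0 : ℝ) ≤ k * (k - 1) / 2 := by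
      have : (0 : ℝ) ≤ k - 1 := by linarith
      positivity
    have e1 : (k : ℝ) * (k - 1) / 2 ≤ (k : ℝ) ^ 2 := by nlinarith
    have e2 := mul_le_mul_of_nonneg_left h3 e0
    have e3 := mul_le_mul_of_nonneg_right e1 (abs_nonneg (f * m w))
    linarith
  nlinarith

end recursion

/-- **The dynamical lemma.** `V` and `V'` satisfy the recursions for `g` and for the inverse of `g`,
with `u' = - u ∘ g⁻¹`, and both are at most `C k ^ 2`. Then on the forward orbit of every point `V k`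
is not everywhere below `- C' k ^ 2`. -/
theorem orbit_bound {Y : Type} (g : Equiv.Perm Y) (z : Y) {u v w v' w' : Y → ℝ} {f c : ℝ}
    {V V' : ℕ → Y → ℝ} (hu : Bdd u) (hv : Bdd v) (hw : Bdd w) (hv' : Bdd v') (hw' : Bdd w')
    (hc : 0 < c) (h : Rec g u v w f c V) (h' : Rec g.symm (-(u ∘ g.symm)) v' w' (-f) c V')
    {C C' : ℝ} (hC : ∀ k y, V k y ≤ C * (k : ℝ) ^ 2) (hC' : ∀ k y, V' k y ≤ C' * (k : ℝ) ^ 2) :
    ∃ B : ℝ, ∀ (k : ℕ) (M : ℝ), 0 < k → (∀ i : ℕ, V k ((g ^ i) z) ≤ - M * (k : ℝ) ^ 2) → M ≤ B := by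
  have hm := isMean g z
  have hu' : Bdd (-(u ∘ g.symm)) := by
    have := (hu.comp g.symm).smul (-1)
    rwa [neg_one_smul] at this
  have h1 := hm.u_le h hu hv hw hc hC
  have h2 := hm.symm.u_le h' hu' hv' hw' hc hC'
  have h3 : mn g z (-(u ∘ g.symm)) = - mn g z u := by
    have e := hm.smul (-1) _ (hu.comp g.symm)
    rw [neg_one_smul, hm.symm.inv _ hu] at e
    rw [e]; ring
  rw [h3] at h2
  have h0 : mn g z u = 0 := le_antisymm h1 (by linarith)
  refine ⟨|mn g z v| + |f * mn g z w|, fun k M hk hM => ?_⟩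
  have h4 := hm.low h hu hv hw h0 k
  have h5 := hm.le (V k) (- M * (k : ℝ) ^ 2) (h.bdd hu hv hw k) (by rintro y ⟨i, rfl⟩; exact hM i)
  have hk' : (0 : ℝ) < (k : ℝ) ^ 2 := by positivity
  have h6 : M * (k : ℝ) ^ 2 ≤ (|mn g z v| + |f * mn g z w|) * (k : ℝ) ^ 2 := by linarith
  exact le_of_mul_le_mul_right h6 hk'

end Pool.Agent.H49.LAM
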